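import Pool.Agent.Helper17.IAN.StN

set_option autoImplicit false

namespace Pool.Agent.Helper66.IAN

open Finset Pool.Agent.Helper93.IA Pool.Agent.Helper17.IAN

theorem hEJB : StEJB := by
  intro hPJB hCYL hPRD hEXB α β γ _ _ _ _ _ _ n Λ δ x hδ hθ0 hθ1 hD a a' b c c' ha hc
  obtain ⟨θ, hθ⟩ : ∃ θ, θ = Λ / (n : ℝ) := ⟨_, rfl⟩
  rw [← hθ] at hθ0 hθ1 ⊢
  have hx0 := hD.x0
  have hx1 : ∀ a b c, x a b c ≤ θ := fun a b c => by rw [hθ]; exact hD.x1 a b c
  rw [hPJB hCYL hPRD α β γ x a a' b c c' ha hc]
  by_cases hX : x a b c' * x a' b c = 0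
  · rw [hX]; simp
  have h1 : x a b c' ≠ 0 := left_ne_zero_of_mul hX
  have h2 : x a' b c ≠ 0 := right_ne_zero_of_mul hX
  have e1 : ∏ j ∈ (((univ : Finset α).erase a).erase a').disjSum
        (((univ : Finset β).erase b).disjSum ((univ : Finset β).erase b)),
        (1 - Sum.elim (fun a'' => x a'' b c + x a'' b c')
          (Sum.elim (fun b'' => x a b'' c') (fun b'' => x a' b'' c)) j)
      = (∏ a'' ∈ (univ.erase a).erase a', (1 - (x a'' b c + x a'' b c')))
        * ((∏ b'' ∈ univ.erase b, (1 - x a b'' c')) * ∏ b'' ∈ univ.erase b, (1 - x a' b'' c)) := by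
    rw [Finset.prod_disjSum, Finset.prod_disjSum]
    simp only [Sum.elim_inl, Sum.elim_inr]
  have e2 : ∑ j ∈ (((univ : Finset α).erase a).erase a').disjSum
        (((univ : Finset β).erase b).disjSum ((univ : Finset β).erase b)),
        (Sum.elim (fun a'' => x a'' b c + x a'' b c')
          (Sum.elim (fun b'' => x a b'' c') (fun b'' => x a' b'' c)) j)
      = (∑ a'' ∈ (univ.erase a).erase a', (x a'' b c + x a'' b c'))
        + ((∑ b'' ∈ univ.erase b, x a b'' c') + ∑ b'' ∈ univ.erase b, x a' b'' c) := by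
    rw [Finset.sum_disjSum, Finset.sum_disjSum]
    simp only [Sum.elim_inl, Sum.elim_inr]
  have s1 : ∑ a'' ∈ (univ.erase a).erase a', (x a'' b c + x a'' b c')
      = (∑ a'', x a'' b c) + (∑ a'', x a'' b c') - (x a b c + x a b c')
        - (x a' b c + x a' b c') := by
    have f1 := Finset.add_sum_erase (univ.erase a) (fun a'' => x a'' b c + x a'' b c')
      (Finset.mem_erase.2 ⟨ha.symm, Finset.mem_univ a'⟩)
    have f2 := Finset.add_sum_erase univ (fun a'' => x a'' b c + x a'' b c')
      (Finset.mem_univ a)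
    rw [Finset.sum_add_distrib (s := univ)] at f2
    linarith
  have s2 : ∑ b'' ∈ univ.erase b, x a b'' c' = (∑ b'', x a b'' c') - x a b c' := by
    have f2 := Finset.add_sum_erase univ (fun b'' => x a b'' c') (Finset.mem_univ b)
    linarith
  have s3 : ∑ b'' ∈ univ.erase b, x a' b'' c = (∑ b'', x a' b'' c) - x a' b c := by
    have f2 := Finset.add_sum_erase univ (fun b'' => x a' b'' c) (Finset.mem_univ b)
    linarith
  have l1 := hD.lB a' b c h2
  have l2 := hD.lB a b c' h1
  have l3 := hD.lC a b c' h1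
  have l4 := hD.lC a' b c h2
  have u1 := hD.uB b c
  have u2 := hD.uB b c'
  have u3 := hD.uC c' a
  have u4 := hD.uC c a'
  have key := hEXB (α ⊕ (β ⊕ β)) ((((univ : Finset α).erase a).erase a').disjSum
        (((univ : Finset β).erase b).disjSum ((univ : Finset β).erase b)))
        (Sum.elim (fun a'' => x a'' b c + x a'' b c')
          (Sum.elim (fun b'' => x a b'' c') (fun b'' => x a' b'' c))) 4 (4 * δ + 6 * θ) (2 * θ)
        (by linarith) (by linarith) (by norm_num) (by linarith)
        (by
          rintro (j | j | j) -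
          · simp only [Sum.elim_inl]
            have := hx0 j b c; have := hx0 j b c'; have := hx1 j b c; have := hx1 j b c'
            constructor <;> linarith
          · simp only [Sum.elim_inl, Sum.elim_inr]
            have := hx0 a j c'; have := hx1 a j c'
            constructor <;> linarith
          · simp only [Sum.elim_inr]
            have := hx0 a' j c; have := hx1 a' j c
            constructor <;> linarith)
        (by
          rw [e2, s1, s2, s3]
          have := hx0 a b c; have := hx0 a b c'; have := hx0 a' b c; have := hx0 a' b c'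
          linarith)
        (by
          rw [e2, s1, s2, s3]
          have := hx1 a b c; have := hx1 a b c'; have := hx1 a' b c; have := hx1 a' b c'
          linarith)
  rw [e1] at key
  obtain ⟨Q, hQ⟩ : ∃ Q : ℝ, Q = (∏ a'' ∈ (univ.erase a).erase a', (1 - (x a'' b c + x a'' b c')))
        * ((∏ b'' ∈ univ.erase b, (1 - x a b'' c')) * ∏ b'' ∈ univ.erase b, (1 - x a' b'' c)) :=
    ⟨_, rfl⟩
  rw [← hQ] at key ⊢
  have hXp : 0 ≤ x a b c' * x a' b c := mul_nonneg (hx0 _ _ _) (hx0 _ _ _)
  obtain ⟨X, hXd⟩ : ∃ X, X = x a b c' * x a' b c := ⟨_, rfl⟩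
  rw [← hXd] at hXp ⊢
  rw [show X * Q - Real.exp (-4) * X = (Q - Real.exp (-4)) * X by ring, abs_mul,
    abs_of_nonneg hXp]
  refine mul_le_mul_of_nonneg_right ?_ hXp
  linarith

end Pool.Agent.Helper66.IAN
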